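import Pool.Agent.Helper77.RL.Goals3
import Pool.Agent.Helper48.RL.SPL

/-!
# Project RL (MP_fc6b1e_nt), packet RL-UNR: the inertia groups of the Kummer extension
-/

set_option autoImplicit false

namespace Pool.Agent.Helper82.RL

open NumberField Polynomial Module IsDedekindDomain Pool.Agent.Helper51.SigLeo
open Pool.Agent.Helper51.RP Pool.Agent.Helper77.RL

theorem x_unr : X_UNR := by
  classical
  intro p hp n K E F _ _ _ _ _ _ _ _ _ _ ξ b hK 𝔓 hv1 hc g hg
  have hN : 0 < p ^ n := pow_pos hp.out.pos _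
  have hprimF : IsPrimitiveRoot (algebraMap E F ξ) (p ^ n) :=
    hK.prim.map_of_injective (algebraMap E F).injective
  -- the inertia condition on the local ring
  have hloc : ∀ x : F, 𝔓.valuation F x ≤ 1 → 𝔓.valuation F (g x - x) < 1 := by
    intro x hx
    obtain ⟨m, ⟨d, hd⟩, hnd⟩ :=
      HeightOneSpectrum.exists_primeCompl_mul_eq_of_integer 𝔓 x hx
    rw [← HeightOneSpectrum.intValuation_eq_one_iff_mem_primeCompl] at hd
    have hd1 : 𝔓.valuation F (algebraMap (𝓞 F) F d) = 1 := by
      rw [HeightOneSpectrum.valuation_of_algebraMap]; exact hd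
    have hgd : 𝔓.valuation F (g (algebraMap (𝓞 F) F d)) = 1 := by
      have h1 : g (algebraMap (𝓞 F) F d) =
        (g (algebraMap (𝓞 F) F d) - algebraMap (𝓞 F) F d) + algebraMap (𝓞 F) F d := by ring
      rw [h1, Valuation.map_add_eq_of_lt_right, hd1]
      rw [hd1]; exact hg d
    have h2 : (g x - x) * g (algebraMap (𝓞 F) F d) =
        (g (algebraMap (𝓞 F) F m) - algebraMap (𝓞 F) F m) -
          x * (g (algebraMap (𝓞 F) F d) - algebraMap (𝓞 F) F d) := by
      have h3 : g x * g (algebraMap (𝓞 F) F d) = g (algebraMap (𝓞 F) F m) := by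
        rw [← map_mul]; exact congrArg g hnd
      linear_combination h3 - hnd
    have h4 : 𝔓.valuation F (g x - x) = 𝔓.valuation F ((g x - x) * g (algebraMap (𝓞 F) F d)) := by
      rw [map_mul, hgd, mul_one]
    rw [h4, h2]
    refine ((𝔓.valuation F).map_sub _ _).trans_lt (max_lt (hg m) ?_)
    rw [map_mul]
    exact (mul_le_of_le_one_left' hx).trans_lt (hg d)
  -- roots of unity
  have hroot : ∀ η : F, η ^ p ^ n = 1 → 𝔓.valuation F (η - 1) < 1 → η = 1 := by
    intro η h1 h2
    refine Pool.Agent.Helper48.RL.root_close (𝔓.valuation F) p n η h1 ?_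
    rw [hv1]; exact h2
  have hvroot : ∀ η : F, η ^ p ^ n = 1 → 𝔓.valuation F η = 1 := by
    intro η h1
    have h3 : 𝔓.valuation F η ^ (p ^ n) = 1 := by rw [← map_pow, h1, map_one]
    exact (pow_eq_one_iff.1 h3).resolve_right hN.ne'
  -- `g` fixes `ξ`
  have hξ1 : (algebraMap E F ξ) ^ p ^ n = 1 := hprimF.pow_eq_one
  have hξ0 : algebraMap E F ξ ≠ 0 := by
    intro h0
    rw [h0, zero_pow hN.ne'] at hξ1
    exact zero_ne_one hξ1
  have hgξ : g (algebraMap E F ξ) = algebraMap E F ξ := by
    have h1 : (g (algebraMap E F ξ) / algebraMap E F ξ) ^ p ^ n = 1 := by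
      rw [div_pow, ← map_pow, hξ1, map_one, div_one]
    have h2 : 𝔓.valuation F (g (algebraMap E F ξ) / algebraMap E F ξ - 1) < 1 := by
      have h3 : g (algebraMap E F ξ) / algebraMap E F ξ - 1 =
          (g (algebraMap E F ξ) - algebraMap E F ξ) / algebraMap E F ξ := by
        field_simp
      rw [h3, map_div₀, hvroot _ hξ1, div_one]
      exact hloc _ (hvroot _ hξ1).le
    have h4 := hroot _ h1 h2
    rwa [div_eq_one_iff_eq hξ0] at h4
  -- `g` is trivial on `E`
  have hnorm : Normal K E := hK.galE.to_normal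
  have hgE : ∀ x : E, g (algebraMap E F x) = algebraMap E F x := by
    have h1 : g.restrictNormal E = 1 := by
      apply hK.genE
      apply (algebraMap E F).injective
      rw [AlgEquiv.restrictNormal_commutes, hgξ]
    intro x
    rw [← AlgEquiv.restrictNormal_commutes g E x, h1, AlgEquiv.one_apply]
  refine hK.gen g hgE ?_
  intro σ β hβ
  have hσb : algebraMap E F (σ b) ≠ 0 := by
    intro h0
    have h1 : σ b = 0 := (algebraMap E F).injective (by rw [h0, map_zero])
    exact hK.ne ((map_eq_zero_iff σ σ.injective).1 h1)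
  have hβ0 : β ≠ 0 := by
    rintro rfl
    rw [zero_pow hN.ne'] at hβ
    exact hσb hβ.symm
  obtain ⟨c, hcc⟩ := hc σ
  have hc0 : algebraMap E F c ≠ 0 := by
    intro h0
    rw [h0, map_zero, zero_pow hN.ne', map_eq_zero] at hcc
    exact hσb hcc
  have hy1 : 𝔓.valuation F (β / algebraMap E F c) = 1 := by
    have h3 : 𝔓.valuation F (β / algebraMap E F c) ^ (p ^ n) = 1 := by
      rw [← map_pow, div_pow, map_div₀, hβ, hcc, map_pow]
      exact div_self (pow_ne_zero _ ((_root_.map_ne_zero _).2 hc0))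
    exact (pow_eq_one_iff.1 h3).resolve_right hN.ne'
  have hη1 : (g β / β) ^ p ^ n = 1 := by
    rw [div_pow, ← map_pow, hβ, hgE]
    exact div_self hσb
  have h5 := hloc _ hy1.le
  have h6 : 𝔓.valuation F (g β / β - 1) < 1 := by
    have h7 : g (β / algebraMap E F c) - β / algebraMap E F c =
        (g β / β - 1) * (β / algebraMap E F c) := by
      rw [map_div₀, hgE]
      field_simp
    rw [h7, map_mul, hy1, mul_one] at h5
    exact h5
  have h8 := hroot _ hη1 h6
  rwa [div_eq_one_iff_eq hβ0] at h8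

end Pool.Agent.Helper82.RL
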